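import Pool.Agent.helper87.FM.Spec
import Pool.Agent.helper25.FS.CGR

/-!
# MP_abccb5_co, project FM, row CGB: graphs with marked vertices
-/

set_option autoImplicit false

namespace Pool.Agent.FM

open Polynomial Matrix Pool.Agent.helper42.NS Pool.Agent.FS

theorem CGB : CGB_stmt := fun k m c d h => CGR_main k m c d KRA CXF h

end Pool.Agent.FM
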